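import Pool.Agent.H15.BOQ.Stmt

/-!
MP_c62aed_lc, dag-like proofs for random CNFs: the upper bound.
-/

set_option autoImplicit false

namespace Pool.Agent.H15.BOQ

open Pool.Agent.H15.FLC (Half Violates)
open Pool.Agent.H15.BOP (Formula False2 Circuit SatBy At)

variable {n k l M μ : ℕ}

/-- An unsatisfiable `F` has a refutation with `|Y| (M + 1)` lines for all `y` of `Y`. -/
theorem opt (F : Formula n k l M μ) (hF : ∀ x y, ∃ c, False2 F c x y)
    (Y : Finset (Fin n → Bool)) :
    ∃ f g : ℕ → (Fin n → Bool) → ℝ, ∀ y ∈ Y,
      Derives F 1 (Y.card * (M + 1)) (fun i x => f i x + g i y) y ∧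
        ∃ i < Y.card * (M + 1), ∀ x, f i x + g i y < 0 := by
  classical
  obtain ⟨e, he⟩ : ∃ e : ℕ → (Fin n → Bool), ∀ y ∈ Y, ∃ u < Y.card, e u = y := by
    refine ⟨fun u => if h : u < Y.card then (Y.equivFin.symm ⟨u, h⟩ : Y).1 else fun _ => false,
      fun y hy => ⟨(Y.equivFin ⟨y, hy⟩).1, (Y.equivFin ⟨y, hy⟩).2, ?_⟩⟩
    simp
  let cond : ℕ → (Fin n → Bool) → Prop := fun a x => ∀ i : Fin M, i.1 < a % (M + 1) →
    i ∈ At F (e (a / (M + 1))) → ¬ Violates (F.1 i) x
  let f : ℕ → (Fin n → Bool) → ℝ := fun a x => if cond a x then 0 else -1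
  let g : ℕ → (Fin n → Bool) → ℝ := fun a y => if y = e (a / (M + 1)) then 0 else 1
  have hf1 : ∀ a x, -1 ≤ f a x := by
    intro a x
    show -1 ≤ if cond a x then (0 : ℝ) else -1
    split_ifs <;> norm_num
  refine ⟨f, g, fun y hy => ⟨?_, ?_⟩⟩
  · intro a _
    by_cases hya : y = e (a / (M + 1))
    · have hg : g a y = 0 := if_pos hya
      rcases Nat.eq_zero_or_pos (a % (M + 1)) with h0 | h0
      · refine ⟨∅, ∅, by simp, by simp, by simp, fun x _ _ => ?_⟩
        have hc : cond a x := by
          intro i hi
          rw [h0] at hi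
          exact absurd hi (Nat.not_lt_zero _)
        have hfa : f a x = 0 := if_pos hc
        show 0 ≤ f a x + g a y
        rw [hfa, hg]
        norm_num
      · have ha1 : 1 ≤ a := by
          rcases Nat.eq_zero_or_pos a with h | h
          · rw [h, Nat.zero_mod] at h0
            omega
          · exact h
        have hdm := Nat.div_add_mod a (M + 1)
        have hlt : a % (M + 1) < M + 1 := Nat.mod_lt _ (Nat.succ_pos _)
        have ea : a - 1 = (M + 1) * (a / (M + 1)) + (a % (M + 1) - 1) := by
          generalize (M + 1) * (a / (M + 1)) = Q at hdm ⊢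
          omega
        have hr : a % (M + 1) - 1 < M + 1 := by omega
        have hdiv : (a - 1) / (M + 1) = a / (M + 1) := by
          generalize a % (M + 1) - 1 = r at ea hr
          generalize a / (M + 1) = q at ea ⊢
          rw [ea, Nat.mul_add_div (Nat.succ_pos M) q r, Nat.div_eq_of_lt hr, Nat.add_zero]
        have hmod : (a - 1) % (M + 1) = a % (M + 1) - 1 := by
          generalize a % (M + 1) - 1 = r at ea hr ⊢
          rw [ea, Nat.mul_add_mod, Nat.mod_eq_of_lt hr]
        let i : Fin M := ⟨a % (M + 1) - 1, by omega⟩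
        have hg1 : g (a - 1) y = 0 := by
          show (if y = e ((a - 1) / (M + 1)) then (0 : ℝ) else 1) = 0
          rw [hdiv]
          exact if_pos hya
        have main : ∀ x, 0 ≤ f (a - 1) x + g (a - 1) y →
            (i ∈ At F (e (a / (M + 1))) → ¬ Violates (F.1 i) x) → 0 ≤ f a x + g a y := by
          intro x hx hi
          have hc1 : cond (a - 1) x := by
            by_contra hcon
            have : f (a - 1) x = -1 := if_neg hcon
            rw [this, hg1] at hx
            norm_num at hx
          have hc : cond a x := by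
            intro i' hi' hA
            rcases Nat.lt_or_ge i'.1 (a % (M + 1) - 1) with h | h
            · refine hc1 i' ?_ ?_
              · rw [hmod]
                exact h
              · rw [hdiv]
                exact hA
            · have : i' = i := Fin.ext (show i'.1 = a % (M + 1) - 1 by omega)
              rw [this] at hA ⊢
              exact hi hA
          have hfa : f a x = 0 := if_pos hc
          rw [hfa, hg]
          norm_num
        by_cases hiA : i ∈ At F (e (a / (M + 1)))
        · obtain ⟨j, hj⟩ := hiA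
          refine ⟨{a - 1}, {(i, j)}, by simp, by simp, fun b hb => ?_, fun x hx hcl => ?_⟩
          · rw [Finset.mem_singleton] at hb
            omega
          · refine main x (hx _ (Finset.mem_singleton_self _)) fun _ hv => ?_
            refine hcl _ (Finset.mem_singleton_self _) ⟨hv, ?_⟩
            rw [hya]
            exact hj
        · refine ⟨{a - 1}, ∅, by simp, by simp, fun b hb => ?_, fun x hx _ => ?_⟩
          · rw [Finset.mem_singleton] at hb
            omega
          · exact main x (hx _ (Finset.mem_singleton_self _)) fun h => absurd h hiA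
    · refine ⟨∅, ∅, by simp, by simp, by simp, fun x _ _ => ?_⟩
      have hg : g a y = 1 := if_neg hya
      have := hf1 a x
      show 0 ≤ f a x + g a y
      rw [hg]
      linarith
  · obtain ⟨u, hu, rfl⟩ := he y hy
    have hdiv : (u * (M + 1) + M) / (M + 1) = u := by
      rw [Nat.mul_comm, Nat.mul_add_div (Nat.succ_pos M) u M, Nat.div_eq_of_lt (Nat.lt_succ_self M),
        Nat.add_zero]
    have hmod : (u * (M + 1) + M) % (M + 1) = M := by
      rw [Nat.mul_comm, Nat.mul_add_mod, Nat.mod_eq_of_lt (Nat.lt_succ_self _)]
    refine ⟨u * (M + 1) + M, ?_, fun x => ?_⟩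
    · have : (u + 1) * (M + 1) ≤ Y.card * (M + 1) := Nat.mul_le_mul_right _ hu
      have e1 : (u + 1) * (M + 1) = u * (M + 1) + M + 1 := by ring
      omega
    · have hg : g (u * (M + 1) + M) (e u) = 0 := by
        show (if e u = e ((u * (M + 1) + M) / (M + 1)) then (0 : ℝ) else 1) = 0
        rw [hdiv]
        exact if_pos rfl
      have hc : ¬ cond (u * (M + 1) + M) x := by
        intro hc
        obtain ⟨c, hc1, hc2⟩ := hF x (e u)
        refine hc c.1 ?_ ?_ hc1
        · rw [hmod]
          exact c.1.2
        · rw [hdiv]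
          exact ⟨c.2, hc2⟩
      have hf : f (u * (M + 1) + M) x = -1 := if_neg hc
      rw [hf, hg]
      norm_num

end Pool.Agent.H15.BOQ
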