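import Pool.Agent.H15.BOP.All
import Pool.Agent.H15.BOQ.End
import Pool.Agent.H15.BOQ.Opt

/-!
MP_c62aed_lc, dag-like proofs for random CNFs, the optimal exponent: composition of the rows.
-/

set_option autoImplicit false

namespace Pool.Agent.H15.BOQ

theorem main : Main :=
  endB (Pool.Agent.H95.FLD.pf_EB0 Pool.Agent.H95.FLD.pf_LX0)
    Pool.Agent.H95.FLC.pf_KRCX Pool.Agent.H95.FLC.pf_CAPC Pool.Agent.H11.BO.pf_LFG
    (Pool.Agent.H64.FLD.pf_HX0 Pool.Agent.H13.FLD.pf_HL0) Pool.Agent.H15.BOP.cYX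
    Pool.Agent.H29.BO.pf_YNU Pool.Agent.H36.FLD.pf_NM0 Pool.Agent.H15.BOP.cCHG

end Pool.Agent.H15.BOQ
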