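import Pool.Agent.H15.BOP.Stmt

/-!
MP_c62aed_lc: dag-like proofs for random CNFs whose lines have small one-way communication
complexity, and monotone real circuits, the optimal exponent. The definitions used by the statement
(with helper82), continued: see also `Pool/Agent/H15/BOP/Stmt.lean` and
`Pool/Agent/H15/FLC/Stmt.lean`.
-/

set_option autoImplicit false

namespace Pool.Agent.H15.BOQ

open Pool.Agent.H15.FLC (Half Violates)
open Pool.Agent.H15.BOP (Formula False2 Circuit SatBy At)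

variable {n k l M μ : ℕ}

/-- For one value of the variables `y`: every one of the inequalities `0 ≤ v i x`, `i < s`, for the
variables `x` follows from at most `t` earlier ones and at most `t` clauses of `F`. -/
def Derives (F : Formula n k l M μ) (t s : ℕ) (v : ℕ → (Fin n → Bool) → ℝ)
    (y : Fin n → Bool) : Prop :=
  ∀ i, i < s → ∃ (P : Finset ℕ) (T : Finset (Fin M × Fin μ)), P.card ≤ t ∧ T.card ≤ t ∧
    (∀ j ∈ P, j < i) ∧ ∀ x, (∀ j ∈ P, 0 ≤ v j x) → (∀ c ∈ T, ¬ False2 F c x y) → 0 ≤ v i x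

/-- The lower bounds for `F`. The lines are `0 ≤ f i (τ i y) x + g i y`. -/
def Hard (ε : ℝ) (t : ℕ) (F : Formula n k l M μ) : Prop :=
  (∀ (s K : ℕ) (τ : ℕ → (Fin n → Bool) → Fin K) (f : ℕ → Fin K → (Fin n → Bool) → ℝ)
    (g : ℕ → (Fin n → Bool) → ℝ),
    (Nat.card {y // Derives F t s (fun i x => f i (τ i y) x + g i y) y ∧
      ∃ i < s, 2 ^ n ≤ 2 * Nat.card {x // f i (τ i y) x + g i y < 0}} : ℝ) ≤
        s * K * 2 ^ (4 * ε * n)) ∧
  ∀ (s : ℕ) (h : ℕ → Set (Fin M) → ℝ), Circuit t s h →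
    (Nat.card {y // ∃ i < s, 2 ^ n ≤ 2 * Nat.card {x // h i (SatBy F x) < h i (At F y)}} : ℝ) ≤
      s * 2 ^ (4 * ε * n)

/-- The final statement. -/
def Main : Prop :=
  ∃ C : ℕ, ∀ (ε : ℝ) (n t k l M μ : ℕ), 0 < ε → ε ≤ 1 / 4 → 2 ≤ t → n ≤ t →
    C * Nat.log 2 t ≤ ε ^ 2 * k → C * k ≤ ε ^ 2 * l → C * l ≤ ε * n →
      (M ≤ (2 : ℝ) ^ ((1 + 2 * ε) * k) → μ * (2 : ℝ) ^ (ε * k) ≤ 2 ^ l →
        2 ^ n * Nat.card {F : Formula n k l M μ // ¬ Hard ε t F} ≤
          Nat.card (Formula n k l M μ)) ∧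
      (C * t * 2 ^ k ≤ ε ^ 2 * M → C * t * 2 ^ (k + l) ≤ ε ^ 2 * (M * μ) →
        2 ^ t * Nat.card {F : Formula n k l M μ //
          ∃ x y, (Nat.card {c // False2 F c x y} : ℝ) < (1 - ε) * (M * μ) / 2 ^ (k + l)} ≤
            Nat.card (Formula n k l M μ))

end Pool.Agent.H15.BOQ
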