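import Pool.Agent.H15.BOP.Hrd
import Pool.Agent.H15.BOQ.Stmt

/-!
MP_c62aed_lc, dag-like proofs for random CNFs, the optimal exponent: good formulas are hard.
The proofs are those of helper35 (`Pool/Agent/H35/BO/PRG.lean`) and helper49
(`Pool/Agent/H49/BO/DEG.lean`).
-/

set_option autoImplicit false

namespace Pool.Agent.H15.BOQ

open Finset
open Pool.Agent.H15.FLC (Half Violates InsC CovC KerC ErrC BRC ERC KRC BadC)
open Pool.Agent.H15.FLD (H0 tau0 Par0 T_EB0)
open Pool.Agent.H82.BO (RG YG T_LFG)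
open Pool.Agent.H15.BOP (Formula False2 Circuit SatBy At cover hrd_ins)

variable {n k l M μ : ℕ}

/-- part (1) for inequalities -/
theorem hard1 (hEB0 : T_EB0) (hKRCX : Pool.Agent.H15.FLC.T_KRCX)
    (hCAPC : Pool.Agent.H15.FLC.T_CAPC) (hLFG : T_LFG) (γ : ℝ) (t w d s₀ : ℕ)
    (P : Par0 γ n t k w d s₀) (F : Formula n k l M μ) (h1 : H0 F.1 w s₀) (h2 : YG F.2 w s₀)
    (s : ℕ) (f g : ℕ → (Fin n → Bool) → ℝ) :
    (Nat.card {y // Derives F t s (fun i x => f i x + g i y) y ∧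
      ∃ i < s, 2 ^ n ≤ 2 * Nat.card {x // f i x + g i y < 0}} : ℝ) ≤
        s * 2 ^ ((1 - γ) * n) := by
  classical
  obtain ⟨Y, hYdef⟩ : ∃ Y : Finset (Fin n → Bool), Y = univ.filter fun y =>
      Derives F t s (fun i x => f i x + g i y) y ∧
        ∃ i < s, 2 ^ n ≤ 2 * Nat.card {x // f i x + g i y < 0} := ⟨_, rfl⟩
  have hYc : Nat.card {y // Derives F t s (fun i x => f i x + g i y) y ∧
      ∃ i < s, 2 ^ n ≤ 2 * Nat.card {x // f i x + g i y < 0}} = Y.card := by
    rw [Nat.card_eq_fintype_card, Fintype.card_subtype, hYdef]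
  rw [hYc]
  by_contra hs
  rw [not_le] at hs
  set r : ℕ := t + t * s₀ with hrdef
  set H : Fin M → Half n k := F.1 with hH
  have hcardN : Fintype.card (Fin n → Bool) = 2 ^ n := by
    rw [Fintype.card_fun, Fintype.card_bool, Fintype.card_fin]
  have hs0 : (0 : ℝ) ≤ s := Nat.cast_nonneg _
  have hYn : (Y.card : ℝ) ≤ 2 ^ n := by
    have h3 := card_le_univ Y
    rw [hcardN] at h3
    exact_mod_cast h3
  -- the bad assignments
  have hbad : ∀ i, (univ.filter fun y : Fin n → Bool =>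
      BadC H s₀ (KRC H r w f i) (RG F.2 y)).card ≤ s₀ ^ (s₀ + 1) * 2 ^ (n - w) := by
    intro i
    have := hLFG H (fun y => RG F.2 y) w s₀ s₀ (2 ^ (n - w)) (fun p hp => hrd_ins h1 p hp)
      (fun T hT => h2 T hT) (KRC H r w f i) (hKRCX H r w f i).1
      (hKRCX H r w f i).2
    rw [Nat.card_eq_fintype_card, Fintype.card_subtype] at this
    exact this
  obtain ⟨y, hyY, hy⟩ : ∃ y ∈ Y, ∀ i, i < s →
      ¬ BadC H s₀ (KRC H r w f i) (RG F.2 y) := by
    by_contra hcon
    push Not at hcon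
    have hsub : Y ⊆ (range s).biUnion fun i =>
        univ.filter fun y : Fin n → Bool => BadC H s₀ (KRC H r w f i) (RG F.2 y) := by
      intro y hy
      obtain ⟨i, hi, hb⟩ := hcon y hy
      rw [mem_biUnion]
      exact ⟨i, mem_range.mpr hi, mem_filter.mpr ⟨mem_univ _, hb⟩⟩
    have hc1 : Y.card ≤ s * (s₀ ^ (s₀ + 1) * 2 ^ (n - w)) := by
      have h3 := card_le_card hsub
      refine h3.trans (card_biUnion_le.trans ?_)
      refine (sum_le_sum fun i _ => hbad i).trans ?_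
      rw [sum_const, card_range, smul_eq_mul]
    have hc2 : (Y.card : ℝ) ≤ s * ((s₀ ^ (s₀ + 1) * 2 ^ (n - w) : ℕ) : ℝ) := by
      have : (Y.card : ℝ) ≤ ((s * (s₀ ^ (s₀ + 1) * 2 ^ (n - w)) : ℕ) : ℝ) := by
        exact_mod_cast hc1
      rw [Nat.cast_mul s] at this
      exact this
    have hc3 := P.bad4
    have hc4 : 4 * (Y.card : ℝ) ≤ s * 2 ^ ((1 - γ) * n) := by
      calc 4 * (Y.card : ℝ) ≤ 4 * (s * ((s₀ ^ (s₀ + 1) * 2 ^ (n - w) : ℕ) : ℝ)) := by linarith
        _ = s * (4 * ((s₀ ^ (s₀ + 1) * 2 ^ (n - w) : ℕ) : ℝ)) := by ring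
        _ ≤ s * 2 ^ ((1 - γ) * n) := mul_le_mul_of_nonneg_left hc3 hs0
    have hc5 : (0 : ℝ) ≤ s * 2 ^ ((1 - γ) * n) := by positivity
    linarith
  -- the line `i₀`
  rw [hYdef, mem_filter] at hyY
  obtain ⟨-, hRy, i₀, hi₀, hhalf⟩ := hyY
  obtain ⟨T, -, hTc, hTcov⟩ := cover F r w s₀ t s f g le_rfl y hRy hy i₀ hi₀
  have hB := hCAPC F.1 s₀ T _ hTc hTcov
  have hE := hEB0 F.1 r w d s₀ P.rr P.wn h1 f (i₀ + 1)
  have hE' : (ERC F.1 r w f (i₀ + 1)).card ≤ s * tau0 n w d s₀ :=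
    hE.trans (Nat.mul_le_mul_right _ hi₀)
  have hcov : (univ.filter fun x : Fin n → Bool => f i₀ x + g i₀ y < 0) ⊆
      ERC F.1 r w f (i₀ + 1) ∪ BRC (ERC F.1 r w f (i₀ + 1)) (f i₀) (-(g i₀ y)) := by
    intro x hx0
    rw [mem_filter] at hx0
    rw [mem_union]
    by_cases hx : x ∈ ERC F.1 r w f (i₀ + 1)
    · exact Or.inl hx
    · refine Or.inr ?_
      unfold BRC
      rw [mem_filter]
      refine ⟨mem_univ _, hx, ?_⟩
      have := hx0.2
      linarith
  have hhalf' : 2 ^ n ≤ 2 * (univ.filter fun x : Fin n → Bool => f i₀ x + g i₀ y < 0).card := by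
    have h4 : Nat.card {x // f i₀ x + g i₀ y < 0} =
        (univ.filter fun x : Fin n → Bool => f i₀ x + g i₀ y < 0).card := by
      rw [Nat.card_eq_fintype_card, Fintype.card_subtype]
    rw [h4] at hhalf
    exact hhalf
  have hN : 2 ^ n ≤ 2 * (s * tau0 n w d s₀ + s₀ * 2 ^ (n - k)) := by
    have h3 := card_le_card hcov
    have h4 := h3.trans ((card_union_le _ _).trans (Nat.add_le_add hE' hB))
    omega
  have hN' : (2 : ℝ) ^ n ≤ 2 * (s * (tau0 n w d s₀ : ℝ) + ((s₀ * 2 ^ (n - k) : ℕ) : ℝ)) := by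
    have : (((2 ^ n : ℕ)) : ℝ) ≤ ((2 * (s * tau0 n w d s₀ + s₀ * 2 ^ (n - k)) : ℕ) : ℝ) := by
      exact_mod_cast hN
    rw [Nat.cast_mul 2, Nat.cast_add, Nat.cast_mul s] at this
    simpa using this
  have hT4 : 4 * (s * (tau0 n w d s₀ : ℝ)) ≤ s * 2 ^ ((1 - γ) * n) := by
    calc 4 * (s * (tau0 n w d s₀ : ℝ)) = s * (4 * (tau0 n w d s₀ : ℝ)) := by ring
      _ ≤ s * 2 ^ ((1 - γ) * n) := mul_le_mul_of_nonneg_left P.tau4 hs0
  have hC4 : 4 * ((s₀ * 2 ^ (n - k) : ℕ) : ℝ) < 2 ^ n := by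
    have : ((4 * (s₀ * 2 ^ (n - k)) : ℕ) : ℝ) < ((2 ^ n : ℕ) : ℝ) := by
      exact_mod_cast P.cov
    rw [Nat.cast_mul 4] at this
    simpa using this
  linarith

/-- monotonicity of the number of the elements -/
theorem card_mono {α : Type} [Finite α] {p q : α → Prop} (h : ∀ a, p a → q a) :
    Nat.card {a // p a} ≤ Nat.card {a // q a} := by
  refine Nat.card_le_card_of_injective (fun u : {a // p a} => (⟨u.1, h u.1 u.2⟩ : {a // q a})) ?_
  intro u v huv
  exact Subtype.ext (congrArg (fun z => z.1) huv)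

/-- part (1) with messages follows from part (1) for inequalities -/
theorem hardK (F : Formula n k l M μ) (t : ℕ) (b : ℝ)
    (h1 : ∀ (s : ℕ) (f g : ℕ → (Fin n → Bool) → ℝ),
      (Nat.card {y // Derives F t s (fun i x => f i x + g i y) y ∧
        ∃ i < s, 2 ^ n ≤ 2 * Nat.card {x // f i x + g i y < 0}} : ℝ) ≤ s * b)
    (s K : ℕ) (τ : ℕ → (Fin n → Bool) → Fin K) (f : ℕ → Fin K → (Fin n → Bool) → ℝ)
    (g : ℕ → (Fin n → Bool) → ℝ) :
    (Nat.card {y // Derives F t s (fun i x => f i (τ i y) x + g i y) y ∧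
      ∃ i < s, 2 ^ n ≤ 2 * Nat.card {x // f i (τ i y) x + g i y < 0}} : ℝ) ≤ s * K * b := by
  classical
  have hK : 0 < K := (τ 0 fun _ => false).pos
  let κ : ℕ → Fin K := fun a => ⟨a % K, Nat.mod_lt a hK⟩
  let f' : ℕ → (Fin n → Bool) → ℝ := fun a x => f (a / K) (κ a) x
  let g' : ℕ → (Fin n → Bool) → ℝ := fun a y =>
    if τ (a / K) y = κ a then g (a / K) y else ∑ x, |f (a / K) (κ a) x|
  have hdiv : ∀ (i : ℕ) (c : Fin K), (i * K + c.1) / K = i := by
    intro i c
    rw [Nat.mul_comm, Nat.mul_add_div hK, Nat.div_eq_of_lt c.2, Nat.add_zero]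
  have hmod : ∀ (i : ℕ) (c : Fin K), κ (i * K + c.1) = c := by
    intro i c
    apply Fin.ext
    show (i * K + c.1) % K = c.1
    rw [Nat.mul_comm, Nat.mul_add_mod, Nat.mod_eq_of_lt c.2]
  have hval : ∀ (i : ℕ) (x y : Fin n → Bool),
      f' (i * K + (τ i y).1) x + g' (i * K + (τ i y).1) y = f i (τ i y) x + g i y := by
    intro i x y
    show f ((i * K + (τ i y).1) / K) (κ (i * K + (τ i y).1)) x +
      (if τ ((i * K + (τ i y).1) / K) y = κ (i * K + (τ i y).1)
        then g ((i * K + (τ i y).1) / K) y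
        else ∑ x, |f ((i * K + (τ i y).1) / K) (κ (i * K + (τ i y).1)) x|) = _
    rw [hmod, hdiv, if_pos rfl]
  have hlt : ∀ (i : ℕ) (c : Fin K) (j : ℕ), i < j → i * K + c.1 < j * K := by
    intro i c j hij
    have h2 : (i + 1) * K ≤ j * K := Nat.mul_le_mul_right K hij
    have h3 : (i + 1) * K = i * K + K := by ring
    have := c.2
    omega
  have key : ∀ y, (Derives F t s (fun i x => f i (τ i y) x + g i y) y ∧
      ∃ i < s, 2 ^ n ≤ 2 * Nat.card {x // f i (τ i y) x + g i y < 0}) →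
      (Derives F t (s * K) (fun i x => f' i x + g' i y) y ∧
        ∃ i < s * K, 2 ^ n ≤ 2 * Nat.card {x // f' i x + g' i y < 0}) := by
    rintro y ⟨hD, i, hi, hh⟩
    refine ⟨?_, i * K + (τ i y).1, hlt i _ s hi, ?_⟩
    · intro a ha
      by_cases hτ : τ (a / K) y = κ a
      · have has : a / K < s := by
          rw [Nat.div_lt_iff_lt_mul hK]
          exact ha
        obtain ⟨P, T, hP, hT, hPlt, himp⟩ := hD (a / K) has
        refine ⟨P.image fun j => j * K + (τ j y).1, T, card_image_le.trans hP, hT, ?_, ?_⟩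
        · intro j' hj'
          obtain ⟨j, hj, rfl⟩ := mem_image.1 hj'
          exact lt_of_lt_of_le (hlt j _ _ (hPlt j hj)) (Nat.div_mul_le_self a K)
        · intro x hx hc
          have h3 := himp x (fun j hj => by
            have h4 : 0 ≤ f' (j * K + (τ j y).1) x + g' (j * K + (τ j y).1) y :=
              hx _ (mem_image_of_mem _ hj)
            rw [hval j x y] at h4
            exact h4) hc
          show 0 ≤ f (a / K) (κ a) x +
            (if τ (a / K) y = κ a then g (a / K) y else ∑ x, |f (a / K) (κ a) x|)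
          rw [if_pos hτ, ← hτ]
          exact h3
      · refine ⟨∅, ∅, by simp, by simp, by simp, fun x _ _ => ?_⟩
        show 0 ≤ f (a / K) (κ a) x +
          (if τ (a / K) y = κ a then g (a / K) y else ∑ x, |f (a / K) (κ a) x|)
        rw [if_neg hτ]
        have h3 : |f (a / K) (κ a) x| ≤ ∑ x, |f (a / K) (κ a) x| :=
          single_le_sum (f := fun x => |f (a / K) (κ a) x|) (fun _ _ => abs_nonneg _) (mem_univ x)
        have h4 := neg_abs_le (f (a / K) (κ a) x)
        linarith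
    · simp only [hval]
      exact hh
  have h3 := h1 (s * K) f' g'
  have h4 : (Nat.card {y // Derives F t s (fun i x => f i (τ i y) x + g i y) y ∧
      ∃ i < s, 2 ^ n ≤ 2 * Nat.card {x // f i (τ i y) x + g i y < 0}} : ℝ) ≤
      (Nat.card {y // Derives F t (s * K) (fun i x => f' i x + g' i y) y ∧
        ∃ i < s * K, 2 ^ n ≤ 2 * Nat.card {x // f' i x + g' i y < 0}} : ℝ) := by
    exact_mod_cast card_mono key
  refine h4.trans (h3.trans (le_of_eq ?_))
  push_cast
  ring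

/-- part (2) follows from part (1) for inequalities -/
theorem hard2 (F : Formula n k l M μ) (t : ℕ) (ht : 1 ≤ t) (b : ℝ)
    (h1 : ∀ (s : ℕ) (f g : ℕ → (Fin n → Bool) → ℝ),
      (Nat.card {y // Derives F t s (fun i x => f i x + g i y) y ∧
        ∃ i < s, 2 ^ n ≤ 2 * Nat.card {x // f i x + g i y < 0}} : ℝ) ≤ s * b)
    (s : ℕ) (h : ℕ → Set (Fin M) → ℝ) (hC : Circuit t s h) :
    (Nat.card {y // ∃ i < s, 2 ^ n ≤ 2 * Nat.card {x // h i (SatBy F x) < h i (At F y)}} : ℝ) ≤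
      s * b := by
  classical
  refine le_trans ?_ (h1 s (fun j x => h j (SatBy F x)) (fun j y => -(h j (At F y))))
  rw [Nat.cast_le]
  refine card_mono ?_
  rintro y ⟨i, hi, hh⟩
  refine ⟨?_, i, hi, ?_⟩
  · intro j hj
    rcases hC j hj with ⟨c, hc⟩ | ⟨J, hJ, hlt, hmon⟩
    · by_cases hcy : c ∈ At F y
      · obtain ⟨j', hj'⟩ := hcy
        refine ⟨∅, {(c, j')}, by simp, by simpa using ht, by simp, ?_⟩
        intro x _ hx
        have hx1 : ¬ False2 F (c, j') x y := hx _ (mem_singleton_self _)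
        have hx2 : c ∈ SatBy F x := by
          intro hv
          exact hx1 ⟨hv, hj'⟩
        have h3 := (hc (SatBy F x)).1 hx2
        have h4 := (hc (At F y)).1 ⟨j', hj'⟩
        show 0 ≤ h j (SatBy F x) + -(h j (At F y))
        rw [h3, h4]
        norm_num
      · refine ⟨∅, ∅, by simp, by simp, by simp, ?_⟩
        intro x _ _
        have h4 := (hc (At F y)).2 hcy
        show 0 ≤ h j (SatBy F x) + -(h j (At F y))
        rw [h4]
        by_cases hx2 : c ∈ SatBy F x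
        · rw [(hc _).1 hx2]
          norm_num
        · rw [(hc _).2 hx2]
          norm_num
    · refine ⟨J, ∅, hJ, by simp, hlt, ?_⟩
      intro x hx _
      have h3 := hmon (At F y) (SatBy F x) (fun j' hj' => by
        have h4 : 0 ≤ h j' (SatBy F x) + -(h j' (At F y)) := hx j' hj'
        linarith)
      show 0 ≤ h j (SatBy F x) + -(h j (At F y))
      linarith
  · refine hh.trans (Nat.mul_le_mul_left 2 (card_mono ?_))
    intro x hx
    linarith

end Pool.Agent.H15.BOQ
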